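import Pool.Agent.H53.MW.Targets

/-!
MP_c62aed_lc, work memory, row HC: the heaviest cube.
-/

set_option autoImplicit false

namespace Pool.Agent.H75.MWK

open Finset
open Pool.Agent.H53.MW
open Pool.Agent.H53.MC (U cnt)

theorem pf_HC : T_HC := by
  intro n M k g d s₀ Z hZ
  obtain ⟨⟨A, x⟩, hAx, hmax⟩ := Finset.exists_max_image
    ((Finset.univ : Finset (Finset (Fin n))) ×ˢ Z)
    (fun p => (cb Z p.1 p.2).card * wt g d s₀ p.1)
    ⟨(∅, hZ.choose), Finset.mem_product.2 ⟨Finset.mem_univ _, hZ.choose_spec⟩⟩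
  have hx : x ∈ Z := (Finset.mem_product.1 hAx).2
  refine ⟨A, x, ⟨⟨x, ?_⟩, ?_, ?_⟩, ?_⟩
  · exact Finset.mem_filter.2 ⟨hx, fun _ _ => rfl⟩
  · intro y hy i hi
    exact (Finset.mem_filter.1 hy).2 i hi
  · intro A' x' hA
    rcases (cb (cb Z A x) A' x').eq_empty_or_nonempty with h0 | ⟨y, hy⟩
    · rw [h0, Finset.card_empty, zero_mul]
      exact Nat.zero_le _
    · have hy1 := Finset.mem_filter.1 hy
      have hy2 := Finset.mem_filter.1 hy1.1
      have hsub : cb (cb Z A x) A' x' ⊆ cb Z A' y := by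
        intro z hz
        have hz1 := Finset.mem_filter.1 hz
        have hz2 := Finset.mem_filter.1 hz1.1
        refine Finset.mem_filter.2 ⟨hz2.1, fun i hi => ?_⟩
        rw [hz1.2 i hi, hy1.2 i hi]
      have h1 := hmax (A', y) (Finset.mem_product.2 ⟨Finset.mem_univ _, hy2.1⟩)
      exact (Nat.mul_le_mul_right _ (Finset.card_le_card hsub)).trans h1
  · have h1 := hmax (∅, x) (Finset.mem_product.2 ⟨Finset.mem_univ _, hx⟩)
    have h2 : cb Z ∅ x = Z := by
      apply Finset.filter_true_of_mem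
      intro y _ i hi
      exact absurd hi (Finset.notMem_empty i)
    have h3 : 1 ≤ wt g d s₀ ∅ := Nat.one_le_two_pow
    have h4 : wt g d s₀ A ≤ 2 ^ (d * s₀) :=
      Nat.pow_le_pow_right (by norm_num) (Nat.mul_le_mul_left d (min_le_right _ _))
    calc Z.card = (cb Z ∅ x).card * 1 := by rw [h2, mul_one]
      _ ≤ (cb Z ∅ x).card * wt g d s₀ ∅ := Nat.mul_le_mul_left _ h3
      _ ≤ (cb Z A x).card * wt g d s₀ A := h1
      _ ≤ (cb Z A x).card * 2 ^ (d * s₀) := Nat.mul_le_mul_left _ h4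

end Pool.Agent.H75.MWK
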